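import Pool.Agent.V11163.LF.Core
import Pool.Agent.Y613.PJ.Main

/-!
# Families of sets of small rank on diagonal blocks
-/

set_option autoImplicit false

open Finset

namespace Pool.Agent.V11163.PH

open Pool.Agent.TH700.PA
open Pool.Agent.V11163.LF (cyl_card indep)
open Pool.Agent.Y613.PJ (exists_full cubeSet cube Good)

section general

variable {V α : Type} [Fintype V] [DecidableEq V] [Fintype α]

theorem inter_le [Nonempty α] {κ : Type} {s r : ℕ} (P : κ → Finset V) (X : κ → Finset (V → α))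
    (hX : ∀ j, ∀ x x' : V → α, (∀ v ∈ P j, x v = x' v) → x ∈ X j → x' ∈ X j)
    (hP : ∀ i j, i ≠ j → Disjoint (P i) (P j)) (I : Finset κ)
    (hs : ∀ j ∈ I, s * (X j).card ≤ r * Fintype.card (V → α)) :
    ∀ Z : Finset (V → α), (∀ x ∈ Z, ∀ j ∈ I, x ∈ X j) →
      s ^ I.card * Z.card ≤ r ^ I.card * Fintype.card (V → α) := by
  classical
  induction I using Finset.induction_on with
  | empty =>
    intro Z _
    simpa using card_le_univ Z
  | insert i I hi ih =>
    intro Z hZ
    have hpos : 0 < Fintype.card (V → α) := Fintype.card_pos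
    obtain ⟨Y, hY⟩ : ∃ Y : Finset (V → α), ∀ x, x ∈ Y ↔ ∀ j ∈ I, x ∈ X j :=
      ⟨univ.filter fun x => ∀ j ∈ I, x ∈ X j, by simp⟩
    have h1 := ih (fun j hj => hs j (mem_insert_of_mem hj)) Y (fun x hx => (hY x).1 hx)
    have h2 := hs i (mem_insert_self _ _)
    have h3 := indep (P i) (X i) Y (hX i) (by
      intro x x' hxx hx
      rw [hY] at hx ⊢
      intro j hj
      refine hX j x x' (fun v hv => hxx v fun hv' => ?_) (hx j hj)
      have hne : i ≠ j := fun h => hi (h ▸ hj)
      exact (Finset.disjoint_left.1 (hP i j hne)) hv' hv) Z (fun x hx =>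
        ⟨hZ x hx i (mem_insert_self _ _), (hY x).2 fun j hj => hZ x hx j (mem_insert_of_mem hj)⟩)
    rw [card_insert_of_notMem hi]
    refine Nat.le_of_mul_le_mul_right ?_ hpos
    calc s ^ (I.card + 1) * Z.card * Fintype.card (V → α)
        = s ^ (I.card + 1) * (Z.card * Fintype.card (V → α)) := by ring
      _ ≤ s ^ (I.card + 1) * ((X i).card * Y.card) := Nat.mul_le_mul_left _ h3
      _ = (s * (X i).card) * (s ^ I.card * Y.card) := by ring
      _ ≤ (r * Fintype.card (V → α)) * (r ^ I.card * Fintype.card (V → α)) :=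
          Nat.mul_le_mul h2 h1
      _ = r ^ (I.card + 1) * Fintype.card (V → α) * Fintype.card (V → α) := by ring

/-- Averaging over the values outside `E`. -/
theorem slices {K : Type} [Zero K] (f : (V → α) → K) (E : Finset V) (S : Finset (V → α))
    (hS : ∀ z ∈ S, f z ≠ 0) {s r : ℕ} [Nonempty α]
    (h : ∀ ρ : V → α, ∀ Z : Finset (V → α), (∀ z ∈ Z, f (mix E z ρ) ≠ 0) →
      s * Z.card ≤ r * Fintype.card (V → α)) :
    s * S.card ≤ r * Fintype.card (V → α) := by
  classical
  obtain ⟨T, hT⟩ : ∃ T : (V → α) → Finset (V → α), ∀ ρ z, z ∈ T ρ ↔ f (mix E z ρ) ≠ 0 :=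
    ⟨fun ρ => univ.filter fun z => f (mix E z ρ) ≠ 0, by simp⟩
  have hpos : 0 < Fintype.card (V → α) := Fintype.card_pos
  have h1 : S.card * Fintype.card (V → α) ≤ ∑ ρ, (T ρ).card := by
    rw [← card_univ, ← card_product, ← card_sigma]
    refine card_le_card_of_injOn (fun q => ⟨mix E q.2 q.1, mix E q.1 q.2⟩) ?_ ?_
    · intro q hq
      rw [mem_coe, mem_product] at hq
      rw [mem_coe, mem_sigma]
      refine ⟨mem_univ _, ?_⟩
      rw [hT]
      have e : mix E (mix E q.1 q.2) (mix E q.2 q.1) = q.1 := by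
        funext v
        unfold mix
        by_cases hv : v ∈ E
        · rw [if_pos hv, if_pos hv]
        · rw [if_neg hv, if_neg hv]
      rw [e]
      exact hS _ hq.1
    · rintro ⟨x, y⟩ _ ⟨x', y'⟩ _ he
      simp only [Sigma.mk.injEq] at he
      obtain ⟨h1, h2⟩ := he
      have h2 := eq_of_heq h2
      have h3 : ∀ v, x v = x' v ∧ y v = y' v := by
        intro v
        have e1 := congrFun h1 v
        have e2 := congrFun h2 v
        unfold mix at e1 e2
        by_cases hv : v ∈ E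
        · rw [if_pos hv, if_pos hv] at e1
          rw [if_pos hv, if_pos hv] at e2
          exact ⟨e2, e1⟩
        · rw [if_neg hv, if_neg hv] at e1
          rw [if_neg hv, if_neg hv] at e2
          exact ⟨e1, e2⟩
      refine Prod.ext ?_ ?_
      · funext v; exact (h3 v).1
      · funext v; exact (h3 v).2
  refine Nat.le_of_mul_le_mul_right ?_ hpos
  calc s * S.card * Fintype.card (V → α) = s * (S.card * Fintype.card (V → α)) := by ring
    _ ≤ s * ∑ ρ, (T ρ).card := Nat.mul_le_mul_left _ h1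
    _ = ∑ ρ, s * (T ρ).card := by rw [mul_sum]
    _ ≤ ∑ _ρ : V → α, r * Fintype.card (V → α) :=
        sum_le_sum fun ρ _ => h ρ (T ρ) fun z hz => (hT ρ z).1 hz
    _ = _ := by
        rw [sum_const, card_univ, smul_eq_mul]
        ring

end general

variable {d N l t : ℕ}

/-- The cells of the block `k`. -/
def cell (e : Fin t → Fin l → Fin N) (k : Fin t) (x : Fin d → Fin l) : Fin d → Fin N :=
  fun i => e k (x i)

/-- The block `k`: the cells with all coordinates in the range of `e k`. -/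
def blk (d : ℕ) (e : Fin t → Fin l → Fin N) (k : Fin t) : Finset (Fin d → Fin N) :=
  univ.image (cell e k)

/-- All the blocks. -/
def blks (d : ℕ) (e : Fin t → Fin l → Fin N) : Finset (Fin d → Fin N) :=
  univ.biUnion (blk d e)

theorem cell_mem (e : Fin t → Fin l → Fin N) (k : Fin t) (x : Fin d → Fin l) :
    cell e k x ∈ blk d e k := mem_image_of_mem _ (mem_univ _)

theorem blk_sub (e : Fin t → Fin l → Fin N) (k : Fin t) : blk d e k ⊆ blks d e :=
  fun _ h => mem_biUnion.2 ⟨k, mem_univ _, h⟩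

theorem cell_inj {e : Fin t → Fin l → Fin N}
    (he : ∀ k k' a a', e k a = e k' a' → k = k' ∧ a = a') (k : Fin t) :
    Function.Injective (cell (d := d) e k) := by
  intro x x' h
  funext i
  exact (he _ _ _ _ (congrFun h i)).2

theorem blk_card {e : Fin t → Fin l → Fin N}
    (he : ∀ k k' a a', e k a = e k' a' → k = k' ∧ a = a') (k : Fin t) :
    (blk d e k).card = l ^ d := by
  unfold blk
  rw [card_image_of_injective _ (cell_inj he k)]
  simp

theorem blk_disj (hd : 1 ≤ d) {e : Fin t → Fin l → Fin N}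
    (he : ∀ k k' a a', e k a = e k' a' → k = k' ∧ a = a') (k k' : Fin t) (hk : k ≠ k') :
    Disjoint (blk d e k) (blk d e k') := by
  rw [disjoint_left]
  intro c hc hc'
  obtain ⟨x, -, hx⟩ := mem_image.1 hc
  obtain ⟨x', -, hx'⟩ := mem_image.1 hc'
  rw [← hx'] at hx
  exact hk (he _ _ _ _ (congrFun hx ⟨0, by omega⟩)).1

/-- The family of the sets with a nonzero value of `f`. -/
def IsFam {K : Type} [Zero K] (f : ((Fin d → Fin N) → Bool) → K)
    (S : Finset (Finset (Fin d → Fin N))) : Prop :=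
  ∀ A, A ∈ S ↔ f (fun c => decide (c ∈ A)) ≠ 0

theorem dead {w : ℕ}
    (hl : ∀ χ : ((Fin d → Fin l) → Bool) → Fin w, ∃ (a : (Fin d → Fin l) → Bool)
      (γ : Set (Fin l)) (c : Fin w), γ.Nonempty ∧
      ∀ s : Bool, χ (fun x => open Classical in if x ∈ cubeSet d γ then s else a x) = c)
    {e : Fin t → Fin l → Fin N} (he : ∀ k k' a a', e k a = e k' a' → k = k' ∧ a = a')
    {K : Type} [Field K] {f : ((Fin d → Fin N) → Bool) → K} {S : Finset (Finset (Fin d → Fin N))}
    (hS : IsFam f S) (hgood : ¬ Good S) (k : Fin t) (ρ : (Fin d → Fin N) → Bool)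
    (hR : Rk w (fun z => f (mix (blks d e) z ρ)) (blk d e k)) :
    ∃ a : (Fin d → Fin l) → Bool, ∀ z : (Fin d → Fin N) → Bool, (∀ x, z (cell e k x) = a x) →
      f (mix (blks d e) z ρ) = 0 := by
  classical
  obtain ⟨J, _, y, c, hJ, -, hg⟩ := interp (rk_compl hR)
  by_contra hcon
  push Not at hcon
  choose Zf hZ1 hZ2 using hcon
  have h1 : ∀ a, ∃ j, f (mix (blks d e) (mix (blk d e k)ᶜ (y j) (Zf a)) ρ) ≠ 0 := by
    intro a
    by_contra hcon
    push Not at hcon
    apply hZ2 a
    rw [hg]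
    exact sum_eq_zero fun j _ => by rw [hcon j, mul_zero]
  choose J0 hJ0 using h1
  obtain ⟨a, γ, c0, hγ, hc0⟩ := hl (fun a => Fin.castLE hJ (Fintype.equivFin J (J0 a)))
  obtain ⟨a0, ha0⟩ : ∃ a0 : (Fin d → Fin l) → Bool,
      a0 = fun x => if x ∈ cubeSet d γ then false else a x := ⟨_, rfl⟩
  obtain ⟨a1, ha1⟩ : ∃ a1 : (Fin d → Fin l) → Bool,
      a1 = fun x => if x ∈ cubeSet d γ then true else a x := ⟨_, rfl⟩
  have hj : J0 a0 = J0 a1 := by
    have e1 := hc0 false
    have e2 := hc0 true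
    rw [← e2] at e1
    have e3 := (Fintype.equivFin J).injective (Fin.castLE_injective hJ e1)
    rw [ha0, ha1]
    exact e3
  have hf0 := hJ0 a0
  have hf1 := hJ0 a1
  rw [← hj] at hf1
  apply hgood
  obtain ⟨u0, hu0⟩ : ∃ u0, u0 = mix (blks d e) (mix (blk d e k)ᶜ (y (J0 a0)) (Zf a0)) ρ := ⟨_, rfl⟩
  obtain ⟨u1, hu1⟩ : ∃ u1, u1 = mix (blks d e) (mix (blk d e k)ᶜ (y (J0 a0)) (Zf a1)) ρ := ⟨_, rfl⟩
  rw [← hu0] at hf0
  rw [← hu1] at hf1
  have hin : ∀ x, u0 (cell e k x) = a0 x ∧ u1 (cell e k x) = a1 x := by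
    intro x
    have m1 : cell e k x ∈ blks d e := blk_sub e k (cell_mem e k x)
    have m2 : cell e k x ∉ (blk d e k)ᶜ := by simpa using cell_mem e k x
    rw [hu0, hu1]
    unfold mix
    rw [if_pos m1, if_pos m1, if_neg m2, if_neg m2]
    exact ⟨hZ1 a0 x, hZ1 a1 x⟩
  have hout : ∀ c, c ∉ blk d e k → u0 c = u1 c := by
    intro c hc
    have m2 : c ∈ (blk d e k)ᶜ := by simpa using hc
    rw [hu0, hu1]
    unfold mix
    by_cases m1 : c ∈ blks d e
    · rw [if_pos m1, if_pos m1, if_pos m2, if_pos m2]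
    · rw [if_neg m1, if_neg m1]
  have hdec : ∀ u : (Fin d → Fin N) → Bool,
      (fun c => decide (c ∈ univ.filter fun c => u c = true)) = u := by
    intro u
    funext c
    rcases h : u c with _ | _ <;> simp [h]
  obtain ⟨γ', hγ'⟩ : ∃ γ' : Finset (Fin N), ∀ v, v ∈ γ' ↔ ∃ a ∈ γ, e k a = v :=
    ⟨univ.filter fun v => ∃ a ∈ γ, e k a = v, by simp⟩
  have hcube : ∀ c, c ∈ cube d γ' ↔ ∃ x ∈ cubeSet d γ, cell e k x = c := by
    intro c
    unfold cube
    rw [Fintype.mem_piFinset]
    constructor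
    · intro h
      have h2 : ∀ i, ∃ a ∈ γ, e k a = c i := fun i => (hγ' _).1 (h i)
      choose x hx1 hx2 using h2
      exact ⟨x, hx1, funext hx2⟩
    · rintro ⟨x, hx, rfl⟩ i
      exact (hγ' _).2 ⟨x i, hx i, rfl⟩
  refine ⟨univ.filter fun c => u0 c = true, ?_, γ', ?_, ?_, ?_⟩
  · rw [hS, hdec]
    exact hf0
  · obtain ⟨a, ha⟩ := hγ
    exact ⟨e k a, (hγ' _).2 ⟨a, ha, rfl⟩⟩
  · rw [disjoint_left]
    intro c hc hc'
    rw [mem_filter] at hc
    obtain ⟨x, hx, rfl⟩ := (hcube c).1 hc'
    rw [(hin x).1, ha0] at hc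
    simp only [if_pos hx] at hc
    exact absurd hc.2 (by simp)
  · have e1 : (univ.filter fun c => u0 c = true) ∪ cube d γ' = univ.filter fun c => u1 c = true := by
      ext c
      rw [mem_union, mem_filter, mem_filter, hcube]
      by_cases hc : c ∈ blk d e k
      · obtain ⟨x, -, rfl⟩ := mem_image.1 hc
        rw [(hin x).1, (hin x).2, ha0, ha1]
        by_cases hx : x ∈ cubeSet d γ
        · simp only [if_pos hx]
          exact ⟨fun _ => ⟨mem_univ _, trivial⟩, fun _ => Or.inr ⟨x, hx, rfl⟩⟩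
        · simp only [if_neg hx]
          constructor
          · rintro (h | ⟨x', hx', hxx⟩)
            · exact h
            · rw [cell_inj he k hxx] at hx'
              exact absurd hx' hx
          · exact fun h => Or.inl h
      · rw [hout c hc]
        constructor
        · rintro (h | ⟨x, -, rfl⟩)
          · exact h
          · exact absurd (cell_mem e k x) hc
        · exact fun h => Or.inl h
    rw [e1, hS, hdec]
    exact hf1

/-- **Families of small rank on diagonal blocks.** -/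
theorem main (d w : ℕ) (hd : 1 ≤ d) (hw : 1 ≤ w) : ∃ l : ℕ, 1 ≤ l ∧
    ∀ (N t : ℕ) (e : Fin t → Fin l → Fin N),
    (∀ k k' a a', e k a = e k' a' → k = k' ∧ a = a') →
    ∀ (K : Type) [Field K] (f : ((Fin d → Fin N) → Bool) → K),
      (∀ k ρ, Rk w (fun z => f (mix (blks d e) z ρ)) (blk d e k)) →
      ∀ S : Finset (Finset (Fin d → Fin N)), IsFam f S → ¬ Good S →
        (2 ^ l ^ d) ^ t * S.card ≤ (2 ^ l ^ d - 1) ^ t * 2 ^ N ^ d := by
  classical
  obtain ⟨l, hl⟩ := exists_full d hd Bool (Fin w)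
  have hl1 : 1 ≤ l := by
    obtain ⟨-, γ, -, ⟨x, -⟩, -⟩ := hl (fun _ => ⟨0, hw⟩)
    have := x.2
    omega
  refine ⟨l, hl1, fun N t e he K _ f hR S hS hgood => ?_⟩
  have hQ : Fintype.card ((Fin d → Fin N) → Bool) = 2 ^ N ^ d := by simp
  have hslice : ∀ ρ : (Fin d → Fin N) → Bool, ∀ Z : Finset ((Fin d → Fin N) → Bool),
      (∀ z ∈ Z, f (mix (blks d e) z ρ) ≠ 0) →
      (2 ^ l ^ d) ^ t * Z.card ≤ (2 ^ l ^ d - 1) ^ t * Fintype.card ((Fin d → Fin N) → Bool) := by
    intro ρ Z hZ
    have hdead := fun k => dead (fun χ => by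
      obtain ⟨a, γ, c, h1, h2⟩ := hl χ
      exact ⟨a, γ, c, h1, fun s => by convert h2 s⟩) he hS hgood k ρ (hR k ρ)
    choose a ha using hdead
    obtain ⟨X, hX⟩ : ∃ X : Fin t → Finset ((Fin d → Fin N) → Bool), ∀ k z, z ∈ X k ↔
        ∃ x, z (cell e k x) ≠ a k x := ⟨fun k => univ.filter fun z => ∃ x, z (cell e k x) ≠ a k x,
          by simp⟩
    have h1 := inter_le (s := 2 ^ l ^ d) (r := 2 ^ l ^ d - 1) (blk d e) X (by
      intro k z z' hzz hz
      rw [hX] at hz ⊢
      obtain ⟨x, hx⟩ := hz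
      exact ⟨x, by rwa [← hzz _ (cell_mem e k x)]⟩) (fun k k' hk => blk_disj hd he k k' hk)
      univ (by
        intro k _
        obtain ⟨A, hA⟩ : ∃ A : Finset ({v // v ∈ blk d e k} → Bool), ∀ u, u ∈ A ↔
            ∃ x, u ⟨cell e k x, cell_mem e k x⟩ ≠ a k x :=
          ⟨univ.filter fun u => ∃ x, u ⟨cell e k x, cell_mem e k x⟩ ≠ a k x, by simp⟩
        have h2 := cyl_card (blk d e k) A (X k) (fun z hz => by
          rw [hA]
          exact (hX k z).1 hz)
        have hcP : Fintype.card ({v // v ∈ blk d e k} → Bool) = 2 ^ l ^ d := by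
          rw [Fintype.card_fun, Fintype.card_bool, Fintype.card_coe, blk_card he]
        have hAc : A.card ≤ 2 ^ l ^ d - 1 := by
          have h3 : A.card < Fintype.card ({v // v ∈ blk d e k} → Bool) := by
            rw [← card_univ]
            refine card_lt_card ⟨subset_univ _, fun h => ?_⟩
            have hinv : ∀ v : {v // v ∈ blk d e k}, ∃ x : Fin d → Fin l, cell e k x = v.1 := by
              intro v
              obtain ⟨x, -, hx⟩ := mem_image.1 v.2
              exact ⟨x, hx⟩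
            choose g hg using hinv
            have h4 := h (mem_univ (fun v => a k (g v)))
            rw [hA] at h4
            obtain ⟨x, hx⟩ := h4
            apply hx
            congr 1
            exact cell_inj he k (hg ⟨cell e k x, cell_mem e k x⟩)
          rw [hcP] at h3
          omega
        rw [hcP] at h2
        calc 2 ^ l ^ d * (X k).card = (X k).card * 2 ^ l ^ d := mul_comm _ _
          _ ≤ A.card * Fintype.card ((Fin d → Fin N) → Bool) := h2
          _ ≤ _ := Nat.mul_le_mul_right _ hAc) Z (by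
        intro z hz k _
        rw [hX]
        by_contra hcon
        push Not at hcon
        exact hZ z hz (ha k z hcon))
    rwa [card_univ, Fintype.card_fin] at h1
  have h5 := slices f (blks d e) (S.image fun A c => decide (c ∈ A)) (by
    intro z hz
    obtain ⟨A, hA, rfl⟩ := mem_image.1 hz
    exact (hS A).1 hA) hslice
  rw [card_image_of_injective _ (by
    intro A B h
    ext c
    have := congrFun h c
    simpa using this), hQ] at h5
  exact h5

end Pool.Agent.V11163.PH
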