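import Pool.Agent.V11163.PH.Mach

/-!
# Families decided by weighted machines: the bound
-/

set_option autoImplicit false

open Finset

namespace Pool.Agent.V11163.PH

open Pool.Agent.TH700.PA
open Pool.Agent.Y613.PJ (Compatible coord coord_val coord_inj exists_interval Good cube)

/-- The family `S` of subsets of `[N]^d` is decided by a weighted machine of dimension `w` in `p`
passes: there are a field `K`, matrices `M i t b` of size `w` over `K` (pass `i`, time `t`, bit `b`),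
vectors `u, v`, a numbering `σ` of `[N]` and orders `o 0, ..., o (p - 1)` of the cells of `[N]^d`,
compatible with `σ`, such that `A` is in `S` if and only if the value `wval` is not zero for the
characteristic function of `A`. -/
def Weighted (d N w p : ℕ) (S : Finset (Finset (Fin d → Fin N))) : Prop :=
  ∃ (K : Type) (_ : Field K) (M : Fin p → Fin (N ^ d) → Bool → Matrix (Fin w) (Fin w) K)
    (u v : Fin w → K) (σ : Fin N ≃ Fin N) (o : Fin p → Fin (N ^ d) ≃ (Fin d → Fin N)),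
    (∀ i, Compatible σ (o i)) ∧
      ∀ A, A ∈ S ↔ wval M (fun i => o i) u v (fun c => decide (c ∈ A)) ≠ 0

theorem slice_rk {d N w p l b : ℕ} (hl : 1 ≤ l) {K : Type} [Field K]
    (M : Fin p → Fin (N ^ d) → Bool → Matrix (Fin w) (Fin w) K) (u v : Fin w → K)
    (σ : Fin N ≃ Fin N) (o : Fin p → Fin (N ^ d) ≃ (Fin d → Fin N)) (ho : ∀ i, Compatible σ (o i))
    (hb : b * l ≤ N) (k : Fin b) (ρ : (Fin d → Fin N) → Bool) :
    Rk (w * (w * (1 * ((w * (w * (w * 1))) ^ p * 1))))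
      (fun z => wval M (fun i => o i) u v (mix (blks d (coord σ hb)) z ρ))
      (blk d (coord σ hb) k) := by
  have hY : Nonempty (Fin d → Fin l) := ⟨fun _ => ⟨0, hl⟩⟩
  unfold wval
  refine wval_rk (fun z => (List.ofFn fun a => passMat (M a) (o a)
    (mix (blks d (coord σ hb)) z ρ)).prod) (prod_rk _ fun i => ?_) u v
  obtain ⟨s, t, hst, -, h1, h2⟩ := exists_interval (b := b) (n := N ^ d) (Y := Fin d → Fin l)
    (fun j y => ((o i).symm (cell (coord σ hb) j y) : ℕ)) (fun j y => Fin.is_lt _) (by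
      intro j k' hjk
      have key : ∀ j k' : Fin b, (j : ℕ) < k' → ∀ y y' : Fin d → Fin l, ∀ a b',
          σ (cell (coord σ hb) j y a) < σ (cell (coord σ hb) k' y' b') := by
        intro j k' hjk y y' a b'
        unfold cell
        rw [Fin.lt_def, coord_val, coord_val]
        have h3 : l * ((j : ℕ) + 1) ≤ l * k' := Nat.mul_le_mul_left l hjk
        have h4 := (y a).2
        rw [mul_add, mul_one] at h3
        omega
      rcases Nat.lt_or_gt_of_ne (fun h => hjk (Fin.ext h)) with h | h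
      · rcases ho i with h5 | h5
        · left
          intro y y'
          exact h5 _ _ (key j k' h y y')
        · right
          intro y y'
          exact h5 _ _ (key j k' h y y')
      · rcases ho i with h5 | h5
        · right
          intro y y'
          exact h5 _ _ (key k' j h y' y)
        · left
          intro y y'
          exact h5 _ _ (key k' j h y' y)) k
  refine pass_rk (M i) (o i) (B := blk d (coord σ hb) k)
    (fun z => mix (blks d (coord σ hb)) z ρ) hst ?_ ?_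
  · intro τ hs ht z z' hz
    show mix _ z ρ (o i τ) = mix _ z' ρ (o i τ)
    unfold mix
    by_cases hc : o i τ ∈ blks d (coord σ hb)
    · rw [if_pos hc, if_pos hc]
      apply hz
      obtain ⟨j, -, hj⟩ := mem_biUnion.1 hc
      obtain ⟨y, -, hy⟩ := mem_image.1 hj
      by_cases hjk : j = k
      · rw [← hjk]; exact hj
      · exfalso
        apply h2 j hjk y
        simp only [hy, Equiv.symm_apply_apply]
        exact ⟨hs, ht⟩
    · rw [if_neg hc, if_neg hc]
  · intro τ hτ z z' hz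
    show mix _ z ρ (o i τ) = mix _ z' ρ (o i τ)
    have hc : o i τ ∉ blk d (coord σ hb) k := by
      intro hc
      obtain ⟨y, -, hy⟩ := mem_image.1 hc
      apply hτ
      have h3 := h1 y
      simp only [hy, Equiv.symm_apply_apply] at h3
      exact h3
    unfold mix
    rw [hz _ hc]

theorem weighted_one (d w p : ℕ) (hd : 1 ≤ d) : ∃ lam : ℝ, 0 < lam ∧ lam < 1 ∧
    ∀ (N : ℕ) (S : Finset (Finset (Fin d → Fin N))), Weighted d N w p S → ¬ Good S →
      (S.card : ℝ) ≤ 2 * lam ^ N * 2 ^ (N ^ d) := by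
  obtain ⟨W, hW⟩ : ∃ W, W = w * (w * (1 * ((w * (w * (w * 1))) ^ p * 1))) + 1 := ⟨_, rfl⟩
  obtain ⟨l, hl, h⟩ := main d W hd (by omega)
  have hl0 : (0 : ℝ) < l := by exact_mod_cast hl
  obtain ⟨μ, hμ⟩ : ∃ μ : ℝ, μ = 1 - 1 / 2 ^ l ^ d := ⟨_, rfl⟩
  have hL : 1 ≤ l ^ d := Nat.one_le_pow _ _ hl
  have h2L : (2 : ℝ) ≤ 2 ^ l ^ d := by
    calc (2 : ℝ) = 2 ^ 1 := by norm_num
      _ ≤ 2 ^ l ^ d := pow_le_pow_right₀ (by norm_num) hL
  have hpos : (0 : ℝ) < 2 ^ l ^ d := by positivity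
  have hμ1 : μ < 1 := by
    rw [hμ]
    have : (0 : ℝ) < 1 / 2 ^ l ^ d := by positivity
    linarith
  have hμ2 : 1 / 2 ≤ μ := by
    rw [hμ]
    have : (1 : ℝ) / 2 ^ l ^ d ≤ 1 / 2 := one_div_le_one_div_of_le (by norm_num) h2L
    linarith
  have hμ0 : 0 < μ := by linarith
  refine ⟨μ ^ (1 / (l : ℝ)), Real.rpow_pos_of_pos hμ0 _,
    Real.rpow_lt_one hμ0.le hμ1 (by positivity), ?_⟩
  rintro N S ⟨K, _, M, u, v, σ, o, ho, hS⟩ hgood
  obtain ⟨t, ht⟩ : ∃ t, t = N / l := ⟨_, rfl⟩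
  have hb : t * l ≤ N := by rw [ht]; exact Nat.div_mul_le_self _ _
  have h1 := h N t (coord σ hb) (fun k k' a a' he => coord_inj σ hb he) K
    (wval M (fun i => o i) u v)
    (fun k ρ => rk_mono (by omega) (slice_rk hl M u v σ o ho hb k ρ)) S hS hgood
  have h2 : ((2 : ℝ) ^ l ^ d) ^ t * S.card ≤ ((2 : ℝ) ^ l ^ d - 1) ^ t * 2 ^ N ^ d := by
    have h3 : ((2 ^ l ^ d - 1 : ℕ) : ℝ) = (2 : ℝ) ^ l ^ d - 1 := by
      rw [Nat.cast_sub Nat.one_le_two_pow]
      push_cast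
      ring
    rw [← h3]
    exact_mod_cast h1
  have h4 : (S.card : ℝ) ≤ μ ^ t * 2 ^ N ^ d := by
    have h5 : μ = ((2 : ℝ) ^ l ^ d - 1) / 2 ^ l ^ d := by
      rw [hμ]
      field_simp
    rw [h5, div_pow, div_mul_eq_mul_div, le_div_iff₀ (by positivity)]
    linarith
  have h6 : μ ^ t ≤ 2 * (μ ^ (1 / (l : ℝ))) ^ N := by
    have e1 : (μ ^ (1 / (l : ℝ))) ^ N = μ ^ ((N : ℝ) / l) := by
      rw [← Real.rpow_natCast, ← Real.rpow_mul hμ0.le]
      congr 1
      ring
    have e2 : (N : ℝ) / l ≤ (t : ℝ) + 1 := by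
      rw [div_le_iff₀ hl0]
      have e3 : N < l * (N / l + 1) := Nat.lt_mul_div_succ _ hl
      rw [← ht] at e3
      have e4 : (N : ℝ) ≤ l * ((t : ℝ) + 1) := by exact_mod_cast e3.le
      linarith
    have e5 : μ ^ ((t : ℝ) + 1) ≤ μ ^ ((N : ℝ) / l) :=
      Real.rpow_le_rpow_of_exponent_ge hμ0 hμ1.le e2
    rw [Real.rpow_add hμ0, Real.rpow_one, Real.rpow_natCast] at e5
    rw [e1]
    have e6 : 0 < μ ^ t := pow_pos hμ0 t
    nlinarith
  calc (S.card : ℝ) ≤ μ ^ t * 2 ^ N ^ d := h4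
    _ ≤ (2 * (μ ^ (1 / (l : ℝ))) ^ N) * 2 ^ N ^ d := mul_le_mul_of_nonneg_right h6 (by positivity)

/-- Unions of families decided by weighted machines. -/
theorem weighted_good (d w p : ℕ) (hd : 1 ≤ d) : ∃ lam : ℝ, 0 < lam ∧ lam < 1 ∧
    ∀ (N T : ℕ) (G : Fin T → Finset (Finset (Fin d → Fin N)))
      (S : Finset (Finset (Fin d → Fin N))), (∀ i, Weighted d N w p (G i)) →
      (∀ A, A ∈ S ↔ ∃ i, A ∈ G i) → 2 * T * lam ^ N * 2 ^ (N ^ d) < (S.card : ℝ) → Good S := by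
  classical
  obtain ⟨lam, h0, h1, h⟩ := weighted_one d w p hd
  refine ⟨lam, h0, h1, fun N T G S hG hS hcard => ?_⟩
  by_contra hgood
  have h2 : ∀ i, ((G i).card : ℝ) ≤ 2 * lam ^ N * 2 ^ (N ^ d) := by
    intro i
    refine h N (G i) (hG i) fun hgi => hgood ?_
    obtain ⟨A, hA, γ, hγ, hdis, hAγ⟩ := hgi
    exact ⟨A, (hS A).2 ⟨i, hA⟩, γ, hγ, hdis, (hS _).2 ⟨i, hAγ⟩⟩
  have h3 : S ⊆ univ.biUnion G := by
    intro A hA
    obtain ⟨i, hi⟩ := (hS A).1 hA
    exact mem_biUnion.2 ⟨i, mem_univ _, hi⟩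
  have h4 : (S.card : ℝ) ≤ ∑ i, ((G i).card : ℝ) := by
    exact_mod_cast (card_le_card h3).trans card_biUnion_le
  have h5 : ∑ i, ((G i).card : ℝ) ≤ T * (2 * lam ^ N * 2 ^ (N ^ d)) := by
    calc _ ≤ ∑ _i : Fin T, 2 * lam ^ N * (2 : ℝ) ^ (N ^ d) := sum_le_sum fun i _ => h2 i
      _ = _ := by rw [sum_const, card_univ, Fintype.card_fin, nsmul_eq_mul]
  have h6 : (T : ℝ) * (2 * lam ^ N * 2 ^ (N ^ d)) = 2 * T * lam ^ N * 2 ^ (N ^ d) := by ring
  linarith

end Pool.Agent.V11163.PH
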