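import Pool.Agent.V11163.PH.Core
import Mathlib.Data.Matrix.Mul
import Mathlib.Analysis.SpecialFunctions.Pow.Real

/-!
# Families decided by weighted machines
-/

set_option autoImplicit false

open Finset

namespace Pool.Agent.V11163.PH

open Pool.Agent.TH700.PA
open Pool.Agent.Y613.PJ (Compatible coord coord_val coord_inj exists_interval Good cube exists_full)

section rank

variable {V K : Type} [CommSemiring K]

theorem rk_in {f : (V → Bool) → K} {B : Finset V}
    (h : ∀ z z', (∀ v ∈ B, z v = z' v) → f z = f z') : Rk 1 f B :=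
  ⟨Unit, inferInstance, fun z _ => f z, fun _ _ => 1, by simp, fun z z' hz => by
    funext _
    exact h z z' hz, fun _ _ _ => rfl, fun z => by simp⟩

theorem rk_out {f : (V → Bool) → K} {B : Finset V}
    (h : ∀ z z', (∀ v, v ∉ B → z v = z' v) → f z = f z') : Rk 1 f B :=
  ⟨Unit, inferInstance, fun _ _ => 1, fun z _ => f z, by simp, fun _ _ _ => rfl, fun z z' hz => by
    funext _
    exact h z z' hz, fun z => by simp⟩

theorem rk_mul {f f' : (V → Bool) → K} {B : Finset V} {a b : ℕ} (h : Rk a f B) (h' : Rk b f' B) :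
    Rk (a * b) (fun z => f z * f' z) B := by
  obtain ⟨J, i, g, H, h0, h1, h2, h3⟩ := h
  obtain ⟨J', i', g', H', h0', h1', h2', h3'⟩ := h'
  refine ⟨J × J', inferInstance, fun z k => g z k.1 * g' z k.2, fun z k => H z k.1 * H' z k.2, ?_,
    ?_, ?_, ?_⟩
  · rw [Fintype.card_prod]
    exact Nat.mul_le_mul h0 h0'
  · intro z z' hz
    funext k
    show g z k.1 * g' z k.2 = g z' k.1 * g' z' k.2
    rw [h1 z z' hz, h1' z z' hz]
  · intro z z' hz
    funext k
    show H z k.1 * H' z k.2 = H z' k.1 * H' z' k.2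
    rw [h2 z z' hz, h2' z z' hz]
  · intro z
    show f z * f' z = ∑ k : J × J', (g z k.1 * g' z k.2) * (H z k.1 * H' z k.2)
    rw [h3, h3', sum_mul_sum, Fintype.sum_prod_type]
    exact sum_congr rfl fun k _ => sum_congr rfl fun k' _ => by ring

theorem rk_sum {w a : ℕ} {f : Fin w → (V → Bool) → K} {B : Finset V} (h : ∀ i, Rk a (f i) B) :
    Rk (w * a) (fun z => ∑ i, f i z) B := by
  choose J i g H h0 h1 h2 h3 using h
  refine ⟨Σ k, J k, inferInstance, fun z k => g k.1 z k.2, fun z k => H k.1 z k.2, ?_, ?_, ?_, ?_⟩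
  · rw [Fintype.card_sigma]
    calc _ ≤ ∑ _k : Fin w, a := sum_le_sum fun k _ => h0 k
      _ = w * a := by simp
  · intro z z' hz
    funext k
    show g k.1 z k.2 = g k.1 z' k.2
    rw [h1 k.1 z z' hz]
  · intro z z' hz
    funext k
    show H k.1 z k.2 = H k.1 z' k.2
    rw [h2 k.1 z z' hz]
  · intro z
    rw [Fintype.sum_sigma]
    exact sum_congr rfl fun k _ => h3 k z

/-- All entries have rank at most `a`. -/
def MRk {w : ℕ} (a : ℕ) (F : (V → Bool) → Matrix (Fin w) (Fin w) K) (B : Finset V) : Prop :=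
  ∀ i j, Rk a (fun z => F z i j) B

theorem mrk_mul {w a b : ℕ} {F G : (V → Bool) → Matrix (Fin w) (Fin w) K} {B : Finset V}
    (hF : MRk a F B) (hG : MRk b G B) : MRk (w * (a * b)) (fun z => F z * G z) B := by
  intro i j
  simp only [Matrix.mul_apply]
  exact rk_sum fun k => rk_mul (hF i k) (hG k j)

theorem mrk_one {w : ℕ} (B : Finset V) : MRk 1 (fun _ => (1 : Matrix (Fin w) (Fin w) K)) B :=
  fun _ _ => rk_in fun _ _ _ => rfl

end rank

section lists

variable {X : Type} {n : ℕ}

theorem ofFn_split [Monoid X] (F : Fin n → X) (s r : ℕ) : (List.ofFn F).prod =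
    ((List.ofFn F).take s).prod * ((((List.ofFn F).drop s).take r).prod *
      (((List.ofFn F).drop s).drop r).prod) := by
  rw [List.prod_take_mul_prod_drop, List.prod_take_mul_prod_drop]

theorem take_congr {F G : Fin n → X} {s : ℕ} (h : ∀ τ : Fin n, (τ : ℕ) < s → F τ = G τ) :
    (List.ofFn F).take s = (List.ofFn G).take s := by
  apply List.ext_getElem
  · simp
  · intro i h1 h2
    simp only [List.length_take, List.length_ofFn] at h1
    simp only [List.getElem_take, List.getElem_ofFn]
    exact h _ (by simp only; omega)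

theorem mid_congr {F G : Fin n → X} {s r : ℕ}
    (h : ∀ τ : Fin n, s ≤ (τ : ℕ) → (τ : ℕ) < s + r → F τ = G τ) :
    ((List.ofFn F).drop s).take r = ((List.ofFn G).drop s).take r := by
  apply List.ext_getElem
  · simp
  · intro i h1 h2
    simp only [List.length_take, List.length_drop, List.length_ofFn] at h1
    simp only [List.getElem_take, List.getElem_drop, List.getElem_ofFn]
    exact h _ (by simp only; omega) (by simp only; omega)

theorem drop_congr {F G : Fin n → X} {s r : ℕ} (h : ∀ τ : Fin n, s + r ≤ (τ : ℕ) → F τ = G τ) :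
    ((List.ofFn F).drop s).drop r = ((List.ofFn G).drop s).drop r := by
  apply List.ext_getElem
  · simp
  · intro i h1 h2
    simp only [List.length_drop, List.length_ofFn] at h1
    simp only [List.getElem_drop, List.getElem_ofFn]
    exact h _ (by simp only; omega)

end lists

/-- The matrix of one pass: the product of the matrices of the steps. -/
def passMat {K X : Type} [Field K] {w n : ℕ} (M : Fin n → Bool → Matrix (Fin w) (Fin w) K)
    (o : Fin n → X) (z : X → Bool) : Matrix (Fin w) (Fin w) K :=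
  (List.ofFn fun t => M t (z (o t))).prod

/-- The value of a weighted machine: a bilinear form of the product of the matrices of all the
passes. -/
def wval {K X : Type} [Field K] {w n p : ℕ} (M : Fin p → Fin n → Bool → Matrix (Fin w) (Fin w) K)
    (o : Fin p → Fin n → X) (u v : Fin w → K) (z : X → Bool) : K :=
  ∑ i, ∑ j, u i * ((List.ofFn fun a => passMat (M a) (o a) z).prod i j * v j)

theorem pass_rk {K X : Type} [Field K] {w n : ℕ} (M : Fin n → Bool → Matrix (Fin w) (Fin w) K)
    (o : Fin n → X) {B : Finset X} (Φ : (X → Bool) → X → Bool) {s t : ℕ} (hst : s ≤ t)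
    (hin : ∀ τ : Fin n, s ≤ (τ : ℕ) → (τ : ℕ) < t → ∀ z z' : X → Bool, (∀ v ∈ B, z v = z' v) →
      Φ z (o τ) = Φ z' (o τ))
    (hout : ∀ τ : Fin n, ¬ (s ≤ (τ : ℕ) ∧ (τ : ℕ) < t) → ∀ z z' : X → Bool,
      (∀ v, v ∉ B → z v = z' v) → Φ z (o τ) = Φ z' (o τ)) :
    MRk (w * (w * 1)) (fun z => passMat M o (Φ z)) B := by
  have h1 : MRk 1 (fun z => ((List.ofFn fun τ => M τ (Φ z (o τ))).take s).prod) B := by
    intro i j
    refine rk_out fun z z' hz => ?_
    have e := take_congr (F := fun τ => M τ (Φ z (o τ))) (G := fun τ => M τ (Φ z' (o τ))) (s := s)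
      fun τ hτ => congrArg (M τ) (hout τ (by omega) z z' hz)
    show ((List.ofFn fun τ => M τ (Φ z (o τ))).take s).prod i j =
      ((List.ofFn fun τ => M τ (Φ z' (o τ))).take s).prod i j
    rw [e]
  have h2 : MRk 1 (fun z => (((List.ofFn fun τ => M τ (Φ z (o τ))).drop s).take (t - s)).prod) B := by
    intro i j
    refine rk_in fun z z' hz => ?_
    have e := mid_congr (F := fun τ => M τ (Φ z (o τ))) (G := fun τ => M τ (Φ z' (o τ))) (s := s)
      (r := t - s) fun τ h1 h2 => congrArg (M τ) (hin τ h1 (by omega) z z' hz)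
    show (((List.ofFn fun τ => M τ (Φ z (o τ))).drop s).take (t - s)).prod i j =
      (((List.ofFn fun τ => M τ (Φ z' (o τ))).drop s).take (t - s)).prod i j
    rw [e]
  have h3 : MRk 1 (fun z => (((List.ofFn fun τ => M τ (Φ z (o τ))).drop s).drop (t - s)).prod) B := by
    intro i j
    refine rk_out fun z z' hz => ?_
    have e := drop_congr (F := fun τ => M τ (Φ z (o τ))) (G := fun τ => M τ (Φ z' (o τ))) (s := s)
      (r := t - s) fun τ h1 => congrArg (M τ) (hout τ (by omega) z z' hz)
    show (((List.ofFn fun τ => M τ (Φ z (o τ))).drop s).drop (t - s)).prod i j =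
      (((List.ofFn fun τ => M τ (Φ z' (o τ))).drop s).drop (t - s)).prod i j
    rw [e]
  have h4 := mrk_mul h1 (mrk_mul h2 h3)
  intro i j
  have h5 := h4 i j
  unfold passMat
  simp only [ofFn_split (fun τ => M τ _) s (t - s)]
  simpa only [one_mul, mul_one] using h5

theorem prod_rk {K V : Type} [Field K] {w a p : ℕ} {B : Finset V}
    (F : Fin p → (V → Bool) → Matrix (Fin w) (Fin w) K) (hF : ∀ i, MRk a (F i) B) :
    MRk ((w * a) ^ p) (fun z => (List.ofFn fun i => F i z).prod) B := by
  induction p with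
  | zero =>
    simp only [List.ofFn_zero, List.prod_nil, pow_zero]
    exact mrk_one B
  | succ p ih =>
    simp only [List.ofFn_succ, List.prod_cons]
    have h := mrk_mul (hF 0) (ih (fun i => F i.succ) fun i => hF i.succ)
    have e : (w * a) ^ (p + 1) = w * (a * (w * a) ^ p) := by ring
    rw [e]
    exact h

theorem wval_rk {K V : Type} [Field K] {w a : ℕ} {B : Finset V}
    (F : (V → Bool) → Matrix (Fin w) (Fin w) K) (hF : MRk a F B) (u v : Fin w → K) :
    Rk (w * (w * (1 * (a * 1)))) (fun z => ∑ i, ∑ j, u i * (F z i j * v j)) B :=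
  rk_sum fun i => rk_sum fun j => rk_mul (rk_in (f := fun _ => u i) fun _ _ _ => rfl)
    (rk_mul (hF i j) (rk_in (f := fun _ => v j) fun _ _ _ => rfl))

end Pool.Agent.V11163.PH
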